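import Pool.Agent.PQP.StmtsX
import Pool.Agent.Helper55_FLX.Mom
import Pool.Agent.Helper18_FLX.Moa
import Pool.Agent.Helper18_FLX.Mos

/-! Squad PQP, row BNX (helper55): no solutions near the boundary of the ball. -/

set_option autoImplicit false

open scoped InnerProductSpace Topology ContDiff Manifold
open MeasureTheory Filter Set

noncomputable section

namespace Pool.Agent.PQP.H55

open Pool.Agent.Helper42_Paneitz Pool.Agent.Helper82_Vir Pool.Agent.FLX Pool.Agent.PQP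

theorem radialExt_sum (g : Fin 5 → S4 → ℝ) (c : Fin 5 → ℝ) :
    radialExt (fun z => ∑ i, c i * g i z) = fun y => ∑ i, c i • radialExt (g i) y := by
  funext y
  by_cases hy : y ≠ 0
  · rw [radialExt_apply _ hy]
    exact Finset.sum_congr rfl fun i _ => by rw [radialExt_apply _ hy, smul_eq_mul]
  · unfold radialExt
    rw [dif_neg hy]
    simp [dif_neg hy]

theorem hess_sum {g : Fin 5 → S4 → ℝ} (hg : ∀ i, Sm (g i)) (c : Fin 5 → ℝ) (x : S4) (v w : E5) :
    hess (fun z => ∑ i, c i * g i z) x v w = ∑ i, c i * hess (g i) x v w := by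
  unfold hess
  have hx := S4_ne_zero x
  have h1 : fderiv ℝ (radialExt fun z => ∑ i, c i * g i z) =ᶠ[𝓝 (x : E5)]
      fun y => ∑ i, c i • fderiv ℝ (radialExt (g i)) y := by
    filter_upwards [eventually_ne_zero hx] with y hy
    rw [radialExt_sum]
    have h3 : HasFDerivAt (fun y => ∑ i, c i • radialExt (g i) y)
        (∑ i, c i • fderiv ℝ (radialExt (g i)) y) y :=
      HasFDerivAt.fun_sum fun i _ => (sm_diffAt (hg i) hy).hasFDerivAt.const_smul (c i)
    exact h3.fderiv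
  have hd : ∀ i, DifferentiableAt ℝ (fderiv ℝ (radialExt (g i))) (x : E5) := fun i =>
    ((hg i x hx).fderiv_right (m := ∞) (by simp)).differentiableAt (by simp)
  have h2 : fderiv ℝ (fun y => ∑ i, c i • fderiv ℝ (radialExt (g i)) y) (x : E5) =
      ∑ i, c i • fderiv ℝ (fderiv ℝ (radialExt (g i))) (x : E5) := by
    have h3 : HasFDerivAt (fun y => ∑ i, c i • fderiv ℝ (radialExt (g i)) y)
        (∑ i, c i • fderiv ℝ (fderiv ℝ (radialExt (g i))) (x : E5)) (x : E5) :=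
      HasFDerivAt.fun_sum fun i _ => (hd i).hasFDerivAt.const_smul (c i)
    exact h3.fderiv
  rw [h1.fderiv_eq, h2]
  simp

theorem sm_lin {g : Fin 5 → S4 → ℝ} (hg : ∀ i, Sm (g i)) (c : Fin 5 → ℝ) :
    Sm (fun z => ∑ i, c i * g i z) :=
  sm_sum _ fun i _ => by
    have h2 : Sm fun _ : S4 => c i := sm_of_restrict (fun _ => c i) fun _ => contDiffAt_const
    exact sm_mul h2 (hg i)

theorem dd_lin {g : Fin 5 → S4 → ℝ} (hg : ∀ i, Sm (g i)) (c : Fin 5 → ℝ) (x : S4) (v : E5) :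
    dd (fun z => ∑ i, c i * g i z) x v = ∑ i, c i * dd (g i) x v := by
  have hs : ∀ i, Sm fun z => c i * g i z := fun i => by
    have h2 : Sm fun _ : S4 => c i := sm_of_restrict (fun _ => c i) fun _ => contDiffAt_const
    exact sm_mul h2 (hg i)
  rw [dd_fun_sum _ fun i _ => hs i]
  exact Finset.sum_congr rfl fun i _ => dd_fun_smul _ (hg i) _ _

theorem t3_lin {g : Fin 5 → S4 → ℝ} (hg : ∀ i, Sm (g i)) {B : Fin 5 → ℝ}
    (hB : ∀ i, T3 (B i) (g i)) (c : Fin 5 → ℝ) (hc : ∀ i, |c i| ≤ 1) :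
    T3 (∑ i, B i) (fun z => ∑ i, c i * g i z) := by
  have key : ∀ (t : Fin 5 → ℝ) (N : ℝ), 0 ≤ N → (∀ i, |t i| ≤ B i * N) →
      |∑ i, c i * t i| ≤ (∑ i, B i) * N := by
    intro t N hN ht
    rw [Finset.sum_mul]
    refine (Finset.abs_sum_le_sum_abs _ _).trans (Finset.sum_le_sum fun i _ => ?_)
    rw [abs_mul]
    calc |c i| * |t i| ≤ 1 * |t i| := mul_le_mul_of_nonneg_right (hc i) (abs_nonneg _)
      _ ≤ B i * N := by rw [one_mul]; exact ht i
  refine ⟨fun x y => ?_, fun x v => ?_, fun x v v' => ?_⟩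
  · rw [dd_lin hg, hess_sum hg]
    have h := key (fun i => g i y - g i x - dd (g i) x ((y : E5) - (x : E5)) -
      hess (g i) x ((y : E5) - (x : E5)) ((y : E5) - (x : E5)) / 2) (‖(y : E5) - (x : E5)‖ ^ 3)
      (by positivity) fun i => (hB i).1 x y
    refine le_trans (le_of_eq ?_) h
    congr 1
    rw [← Finset.sum_sub_distrib, ← Finset.sum_sub_distrib, Finset.sum_div,
      ← Finset.sum_sub_distrib]
    exact Finset.sum_congr rfl fun i _ => by ring
  · rw [dd_lin hg]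
    exact key _ _ (norm_nonneg v) fun i => (hB i).2.1 x v
  · rw [hess_sum hg]
    have h := key (fun i => hess (g i) x v v') (‖v‖ * ‖v'‖) (by positivity) fun i => by
      have := (hB i).2.2 x v v'
      rw [mul_assoc] at this
      exact this
    rw [mul_assoc]
    exact h

theorem abs_lap_le {g : S4 → ℝ} {B : ℝ} (hB : T3 B g) (x : S4) : |sphLaplacian g x| ≤ 5 * B := by
  unfold sphLaplacian
  rw [laplacian_eq_sum]
  refine (Finset.abs_sum_le_sum_abs _ _).trans ?_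
  have h : ∀ i ∈ (Finset.univ : Finset (Fin 5)), |iteratedFDeriv ℝ 2 (radialExt g) (x : E5)
      ![EuclideanSpace.basisFun (Fin 5) ℝ i, EuclideanSpace.basisFun (Fin 5) ℝ i]| ≤ B := by
    intro i _
    rw [iteratedFDeriv_two_apply]
    have h2 := hB.2.2 x (ee i) (ee i)
    rw [norm_ee, mul_one, mul_one] at h2
    exact h2
  have h3 := Finset.sum_le_sum h
  rw [Finset.sum_const, Finset.card_univ, Fintype.card_fin, nsmul_eq_mul] at h3
  exact_mod_cast h3

theorem mob_int {w : S4} {lam : ℝ} (h0 : 0 < lam) (h1 : lam < 1) {h g : S4 → ℝ} (hh : Dens h)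
    (hg : Sm g) (hz : ∫ x, g (mob (lam • (w : E5)) x) * h x ∂sig = 0) :
    ∫ x in univ, h x * (g (mob (lam • (w : E5)) x) - g w) ∂sig = - g w := by
  have hb : ‖lam • (w : E5)‖ < 1 := norm_smul_lt h0 h1 w
  have hm : Continuous (mob (lam • (w : E5))) :=
    Pool.Agent.FLX.H55.continuous_mob (Pool.Agent.FLX.H18.mos Pool.Agent.FLX.H18.moa) hb
  rw [setIntegral_univ]
  have e : (fun x => h x * (g (mob (lam • (w : E5)) x) - g w)) =
      fun x => g (mob (lam • (w : E5)) x) * h x - g w * h x := by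
    funext x; ring
  rw [e, integral_sub, hz, integral_const_mul, hh.2.2]
  · ring
  · exact integrable_cont (((continuous_of_sm hg).comp hm).mul hh.1)
  · exact integrable_cont (continuous_const.mul hh.1)

theorem bnx (hM : MtgStmt) (hT : TytStmt) (hD : DilStmt) : BnxStmt := by
  intro ψ K hψ hK hcrit C1 hC1
  -- the lower bound
  have hFc : Continuous fun x => ‖gd ψ x‖ + |sphLaplacian ψ x| :=
    (smV_gd hψ).continuous.norm.add (continuous_of_sm hψ.sphLaplacian).abs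
  have hFpos : ∀ x ∈ K, 0 < ‖gd ψ x‖ + |sphLaplacian ψ x| := by
    intro x hx
    by_cases hcr : Crit ψ x
    · have := abs_pos.2 (hcrit x hx hcr)
      have := norm_nonneg (gd ψ x)
      linarith
    · have h1 : gd ψ x ≠ 0 := by
        intro h0
        apply hcr
        intro v
        rw [← inner_gd, h0, inner_zero_right]
      have := norm_pos_iff.2 h1
      have := abs_nonneg (sphLaplacian ψ x)
      linarith
  obtain ⟨c, hc0, hc⟩ := pos_lower hK hFc hFpos
  -- the Taylor constant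
  have hgs : ∀ i : Fin 5, Sm fun z => dd ψ z (ee i) := fun i => sm_dd hψ _
  choose Bi hBi0 hBi using fun i : Fin 5 => hT _ (hgs i)
  obtain ⟨B, hBdef⟩ : ∃ B : ℝ, B = ∑ i, Bi i := ⟨_, rfl⟩
  have hB0 : 0 ≤ B := by rw [hBdef]; exact Finset.sum_nonneg fun i _ => hBi0 i
  have hT3 : ∀ v : E5, ‖v‖ ≤ 1 → T3 B fun z => dd ψ z v := by
    intro v hv
    have h1 : (fun z => dd ψ z v) = fun z => ∑ i, v i * dd ψ z (ee i) := by
      funext z; exact dd_eq_sum _ _ _
    rw [h1, hBdef]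
    exact t3_lin hgs hBi _ fun i => (PiLp.norm_apply_le v i).trans hv
  obtain ⟨c4, hc4, hM⟩ := hM
  obtain ⟨M, hMdef⟩ : ∃ M : ℝ, M = 5 * B + 6 + 25 / 2 * c4 * B := ⟨_, rfl⟩
  have hM0 : 0 < M := by rw [hMdef]; positivity
  obtain ⟨ε, hεdef⟩ : ∃ ε : ℝ, ε = min 1 (c4 * c / (4 * M)) := ⟨_, rfl⟩
  have hε0 : 0 < ε := by rw [hεdef]; exact lt_min one_pos (by positivity)
  have hε1 : ε ≤ 1 := by rw [hεdef]; exact min_le_left _ _
  have hε2 : ε * M ≤ c4 * (c / 4) := by
    have : ε ≤ c4 * c / (4 * M) := by rw [hεdef]; exact min_le_right _ _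
    rw [le_div_iff₀ (by positivity)] at this
    linarith
  obtain ⟨η1, hη1, hη1', hM⟩ := hM C1 B ε hC1 hB0 hε0
  obtain ⟨η, hηdef⟩ : ∃ η : ℝ, η = min (min η1 (1 / 2)) ((c / (4 * M)) ^ 2 / 2) := ⟨_, rfl⟩
  have hη0 : 0 < η := by
    rw [hηdef]
    exact lt_min (lt_min hη1 (by norm_num)) (by positivity)
  have hηa : η ≤ η1 := by
    rw [hηdef]; exact (min_le_left _ _).trans (min_le_left _ _)
  have hηb : η ≤ 1 / 2 := by
    rw [hηdef]; exact (min_le_left _ _).trans (min_le_right _ _)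
  have hηc : η ≤ (c / (4 * M)) ^ 2 / 2 := by
    rw [hηdef]; exact min_le_right _ _
  refine ⟨η, hη0, by linarith, ?_⟩
  intro w lam h hw hlam hlam1 hh hsm h4 hz
  have hlam0 : 0 < lam := by linarith
  obtain ⟨κ, hκdef⟩ : ∃ κ : ℝ, κ = sq (lam • (w : E5)) := ⟨_, rfl⟩
  have hn : ‖lam • (w : E5)‖ = lam := by
    rw [norm_smul, S4_norm, mul_one, Real.norm_eq_abs, abs_of_pos hlam0]
  have hκsq : κ ^ 2 = 1 - lam ^ 2 := by
    rw [hκdef]
    unfold FLX.sq
    rw [hn, Real.sq_sqrt]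
    nlinarith
  have hκ0 : 0 < κ := by
    rw [hκdef]
    unfold FLX.sq
    rw [hn]
    apply Real.sqrt_pos.2
    nlinarith
  have hκc : κ ≤ c / (4 * M) := by
    apply le_of_sq_le_sq _ (by positivity)
    rw [hκsq]
    nlinarith
  have hκ1 : κ ≤ 1 := by nlinarith
  have hMtg : ∀ (v : E5) (G : ℝ), ‖v‖ ≤ 1 → (∀ u : E5, |dd (fun z => dd ψ z v) w u| ≤ G * ‖u‖) →
      |dd ψ w v + c4 / 2 * κ ^ 2 * sphLaplacian (fun z => dd ψ z v) w| ≤
        ε * (G * κ + κ ^ 2) := by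
    intro v G hv hG
    have h1 := hM w lam h univ (fun z => dd ψ z v) G (by linarith) hlam1 hh (hsm.trans hηa)
      MeasurableSet.univ (fun x _ => mem_univ x) (by rw [setIntegral_univ]; exact h4)
      (sm_dd hψ v) (hT3 v hv) hG
    rw [mob_int hlam0 hlam1 hh (sm_dd hψ v) (hz v), ← hκdef] at h1
    rw [← abs_neg]
    refine le_trans (le_of_eq ?_) h1
    congr 1
    ring
  -- the gradient
  have hg1 : ∀ i : Fin 5, |dd ψ w (ee i)| ≤ ε * (B * κ + κ ^ 2) + 5 / 2 * c4 * κ ^ 2 * B := by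
    intro i
    have hv : ‖ee i‖ ≤ 1 := (norm_ee i).le
    have h1 := hMtg (ee i) B hv fun u => (hT3 _ hv).2.1 w u
    have h2 := abs_lap_le (hT3 _ hv) w
    have h3 : |c4 / 2 * κ ^ 2 * sphLaplacian (fun z => dd ψ z (ee i)) w| ≤
        c4 / 2 * κ ^ 2 * (5 * B) := by
      rw [abs_mul, abs_of_nonneg (by positivity : 0 ≤ c4 / 2 * κ ^ 2)]
      exact mul_le_mul_of_nonneg_left h2 (by positivity)
    rw [abs_le] at h1 h3 ⊢
    constructor
    · linarith [h1.1, h1.2, h3.1, h3.2]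
    · linarith [h1.1, h1.2, h3.1, h3.2]
  obtain ⟨G, hGdef⟩ : ∃ G : ℝ, G = ‖gd ψ w‖ := ⟨_, rfl⟩
  have hG0 : 0 ≤ G := by rw [hGdef]; exact norm_nonneg _
  have hG1 : G ≤ 5 * (ε * (B * κ + κ ^ 2) + 5 / 2 * c4 * κ ^ 2 * B) := by
    rw [hGdef]
    unfold gd
    refine (norm_sum_le _ _).trans ?_
    have h3 := Finset.sum_le_sum (s := (Finset.univ : Finset (Fin 5)))
      (f := fun i => ‖dd ψ w (ee i) • ee i‖)
      (g := fun _ => ε * (B * κ + κ ^ 2) + 5 / 2 * c4 * κ ^ 2 * B) fun i _ => by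
        show ‖dd ψ w (ee i) • ee i‖ ≤ _
        rw [norm_smul, norm_ee, mul_one, Real.norm_eq_abs]
        exact hg1 i
    rw [Finset.sum_const, Finset.card_univ, Fintype.card_fin, nsmul_eq_mul] at h3
    exact_mod_cast h3
  have hκκ : κ ^ 2 ≤ κ := by nlinarith
  have hG2 : G ≤ κ * M := by
    have e1 : ε * (B * κ) ≤ 1 * (B * κ) := mul_le_mul_of_nonneg_right hε1 (by positivity)
    have e2 : ε * κ ^ 2 ≤ 1 * κ ^ 2 := mul_le_mul_of_nonneg_right hε1 (by positivity)
    have e3 : c4 * B * κ ^ 2 ≤ c4 * B * κ := mul_le_mul_of_nonneg_left hκκ (by positivity)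
    rw [hMdef]
    nlinarith
  have hGc : G ≤ c / 4 := by
    refine hG2.trans ?_
    have := mul_le_mul_of_nonneg_right hκc hM0.le
    refine this.trans (le_of_eq ?_)
    field_simp
  -- the Laplacian
  obtain ⟨d1, d2, d3⟩ := hD ψ w hψ
  have hl := hMtg (w : E5) G (S4_norm w).le fun u => by
    rw [d2 u, abs_neg, ← inner_gd, hGdef, mul_comm]
    exact abs_real_inner_le_norm u _
  rw [d1, d3] at hl
  have e0 : 0 + c4 / 2 * κ ^ 2 * (-2 * sphLaplacian ψ w) = - (c4 * κ ^ 2 * sphLaplacian ψ w) := by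
    ring
  rw [e0, abs_neg, abs_mul, abs_of_pos (by positivity : 0 < c4 * κ ^ 2)] at hl
  have hGκ : G * κ ≤ κ ^ 2 * (M - 1) := by
    have e1 : ε * (B * κ) ≤ 1 * (B * κ) := mul_le_mul_of_nonneg_right hε1 (by positivity)
    have e2 : ε * κ ^ 2 ≤ 1 * κ ^ 2 := mul_le_mul_of_nonneg_right hε1 (by positivity)
    have e3 : c4 * B * κ ^ 2 ≤ c4 * B * κ := mul_le_mul_of_nonneg_left hκκ (by positivity)
    have e4 : G ≤ κ * (M - 1) := by
      rw [hMdef]
      nlinarith
    calc G * κ ≤ κ * (M - 1) * κ := mul_le_mul_of_nonneg_right e4 hκ0.le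
      _ = κ ^ 2 * (M - 1) := by ring
  have hlap : |sphLaplacian ψ w| ≤ c / 4 := by
    have e5 : c4 * κ ^ 2 * |sphLaplacian ψ w| ≤ ε * (κ ^ 2 * M) := by
      refine hl.trans (mul_le_mul_of_nonneg_left ?_ hε0.le)
      linarith
    have e6 : ε * (κ ^ 2 * M) ≤ c4 * κ ^ 2 * (c / 4) := by
      have := mul_le_mul_of_nonneg_left hε2 (by positivity : 0 ≤ κ ^ 2)
      linarith
    exact le_of_mul_le_mul_left (e5.trans e6) (by positivity)
  have := hc w hw
  rw [← hGdef] at this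
  linarith

end Pool.Agent.PQP.H55
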